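import Pool.Agent.Helper89.BD.Curve
import Pool.Agent.Helper91.ZC.GenHyp

/-!
# From rational curves over extensions of degree prime to `l` to the Chow group
(Helper89, row D of MP_bd895b_nt)
-/

set_option autoImplicit false

open MvPolynomial

namespace ZC

universe u

section

variable {K L : Type u} [Field K] [Field L] [Algebra K L] {n r : ℕ}

/-- The rational curve `x + z₀ s + z₁ s² + …`. -/
noncomputable def curvePoly {M : Type u} [Field M] {n e : ℕ} (x : Fin (n + 1) → M)
    (z : Fin e → Fin (n + 1) → M) (c : Fin (n + 1)) : Polynomial M :=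
  Polynomial.C (x c) + ∑ i, Polynomial.C (z i c) * Polynomial.X ^ ((i : ℕ) + 1)

theorem curvePoly_coeff_zero {M : Type u} [Field M] {n e : ℕ} (x : Fin (n + 1) → M)
    (z : Fin e → Fin (n + 1) → M) (c : Fin (n + 1)) : (curvePoly x z c).coeff 0 = x c := by
  rw [curvePoly, Polynomial.coeff_add, Polynomial.coeff_C_zero, Polynomial.finsetSum_coeff,
    Finset.sum_eq_zero, add_zero]
  intro i _
  rw [Polynomial.coeff_C_mul_X_pow, if_neg (by omega)]

theorem curvePoly_coeff_succ {M : Type u} [Field M] {n e : ℕ} (x : Fin (n + 1) → M)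
    (z : Fin e → Fin (n + 1) → M) (c : Fin (n + 1)) (j : Fin e) :
    (curvePoly x z c).coeff ((j : ℕ) + 1) = z j c := by
  rw [curvePoly, Polynomial.coeff_add, Polynomial.coeff_C_succ, zero_add,
    Polynomial.finsetSum_coeff, Finset.sum_eq_single j]
  · rw [Polynomial.coeff_C_mul_X_pow, if_pos rfl]
  · intro i _ hij
    rw [Polynomial.coeff_C_mul_X_pow, if_neg]
    intro h
    exact hij (Fin.ext (by omega))
  · intro h
    exact absurd (Finset.mem_univ _) h

theorem curvePoly_natDegree {M : Type u} [Field M] {n e : ℕ} (x : Fin (n + 1) → M)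
    (z : Fin e → Fin (n + 1) → M) (c : Fin (n + 1)) (j : Fin e) (hj : ∀ i, j < i → z i = 0) :
    (curvePoly x z c).natDegree ≤ (j : ℕ) + 1 := by
  rw [curvePoly]
  refine (Polynomial.natDegree_add_le _ _).trans (max_le (by simp) ?_)
  refine Polynomial.natDegree_sum_le_of_forall_le _ _ fun i _ => ?_
  by_cases h : j < i
  · rw [hj i h]
    simp
  · refine (Polynomial.natDegree_C_mul_X_pow_le _ _).trans ?_
    have : (i : ℕ) ≤ j := not_lt.1 h
    omega

/-- The last nonzero coefficient of a rational curve on `X` is a point of `X`. -/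
theorem isPt_last (X : ProjVar K n r) (p : Fin (n + 1) → Polynomial L) (N : ℕ)
    (hdeg : ∀ i, (p i).natDegree ≤ N) (h : ∀ a, aeval p (X.form a) = 0)
    (hz : (fun i => (p i).coeff N) ≠ 0) : X.IsPt (fun i => (p i).coeff N) := by
  refine ⟨hz, fun a => ?_⟩
  have hX0 : (RatFunc.X : RatFunc L) ≠ 0 := RatFunc.X_ne_zero
  have h1 : ∀ i, Polynomial.aeval (RatFunc.X : RatFunc L) (p i) =
      RatFunc.X ^ N * Polynomial.aeval (RatFunc.X⁻¹ : RatFunc L) (Polynomial.reflect N (p i)) := by
    intro i
    have := invertibleOfNonzero hX0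
    have h3 := Polynomial.eval₂_reflect_mul_pow (algebraMap L (RatFunc L)) RatFunc.X N (p i)
      (hdeg i)
    rw [invOf_eq_inv] at h3
    rw [Polynomial.aeval_def, ← h3, mul_comm, Polynomial.aeval_def]
  have h2 : aeval (fun i => Polynomial.aeval (RatFunc.X : RatFunc L) (p i)) (X.form a) = 0 := by
    have h4 := MvPolynomial.comp_aeval_apply p
      ((Polynomial.aeval (RatFunc.X : RatFunc L)).restrictScalars K) (X.form a)
    rw [h a, map_zero] at h4
    exact h4.symm
  simp only [h1] at h2
  rw [aeval_scale (X.hom a)] at h2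
  have h5 := (mul_eq_zero.1 h2).resolve_left (pow_ne_zero _ (pow_ne_zero _ hX0))
  have h6 : Polynomial.aeval (RatFunc.X⁻¹ : RatFunc L)
      (aeval (fun i => Polynomial.reflect N (p i)) (X.form a)) = 0 := by
    have h4 := MvPolynomial.comp_aeval_apply (fun i => Polynomial.reflect N (p i))
      ((Polynomial.aeval (RatFunc.X⁻¹ : RatFunc L)).restrictScalars K) (X.form a)
    rw [← h5]
    exact h4
  have h7 : aeval (fun i => Polynomial.reflect N (p i)) (X.form a) = (0 : Polynomial L) := by
    by_contra hne
    exact transcendental_X_inv (L := L) ⟨_, hne, h6⟩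
  have h8 := MvPolynomial.comp_aeval_apply (fun i => Polynomial.reflect N (p i))
      ((Polynomial.aeval (0 : L)).restrictScalars K) (X.form a)
  rw [h7, map_zero] at h8
  rw [h8]
  congr 1
  congr 1
  funext i
  change _ = Polynomial.aeval (0 : L) (Polynomial.reflect N (p i))
  rw [Polynomial.coe_aeval_eq_eval, ← Polynomial.coeff_zero_eq_eval_zero,
    Polynomial.coeff_reflect, Polynomial.revAt_le (Nat.zero_le N), Nat.sub_zero]

/-- The cycle of a point over `L`, seen over a finite extension `M` of `L`. -/
theorem ptCycle_tower (X : ProjVar K n r) {M : Type u} [Field M] [Algebra K M] [Algebra L M]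
    [IsScalarTower K L M] [FiniteDimensional K L] [FiniteDimensional L M]
    (x : Fin (n + 1) → L) (hx : X.IsPt x) (hx' : X.IsPt fun i => algebraMap L M (x i)) :
    ptCycle X (fun i => algebraMap L M (x i)) hx' = (Module.finrank L M : ℤ) • ptCycle X x hx := by
  have hfd : FiniteDimensional K M := FiniteDimensional.trans K L M
  obtain ⟨m, h1, h2⟩ := ptCycle_emb X (IsScalarTower.toAlgHom K L M) hx
  have halg : Algebra.IsAlgebraic K L := inferInstance
  have h3 : ptCycle X x hx =
      Finsupp.single (closedPt X x hx) (Module.finrank (coordField K x) L : ℤ) := by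
    rw [ptCycle, dif_pos halg]
  have h4 := degZ_ptCycle X x hx
  rw [h3, degZ_single] at h4
  have h5 : ((closedPt X x hx).deg : ℤ) ≠ 0 := by
    intro h0
    rw [h0, mul_zero] at h4
    have : 0 < Module.finrank K L := Module.finrank_pos
    omega
  have h6 : m = (Module.finrank L M : ℤ) * (Module.finrank (coordField K x) L : ℤ) := by
    apply mul_right_cancel₀ h5
    rw [h2, mul_assoc, h4, ← Module.finrank_mul_finrank K L M]
    push_cast
    ring
  have h7 : ptCycle X (fun i => algebraMap L M (x i)) hx' = Finsupp.single (closedPt X x hx) m :=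
    h1
  rw [h7, h3, h6, Finsupp.smul_single, smul_eq_mul]

/-- Two points over `M` on rational curves with the same last coefficient. -/
theorem joined_equiv [FiniteDimensional K L] (X : ProjVar K n r) (x y : Fin (n + 1) → L)
    (hx : X.IsPt x) (hy : X.IsPt y) {e : ℕ} (z : Fin e → Fin (n + 1) → L) (hz : z ≠ 0)
    (h : ∀ a, aeval (curvePoly x z) (X.form a) = 0) (h' : ∀ a, aeval (curvePoly y z) (X.form a) = 0) :
    ptCycle X x hx - ptCycle X y hy ∈ ratEquiv X := by
  classical
  -- the last nonzero coefficient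
  obtain ⟨j, hj, hj'⟩ : ∃ j, z j ≠ 0 ∧ ∀ i, j < i → z i = 0 := by
    have hne : (Finset.univ.filter fun j => z j ≠ 0).Nonempty := by
      obtain ⟨j, hj⟩ := Function.ne_iff.1 hz
      exact ⟨j, by simpa using hj⟩
    refine ⟨(Finset.univ.filter fun j => z j ≠ 0).max' hne,
      (Finset.mem_filter.1 (Finset.max'_mem _ hne)).2, fun i hi => ?_⟩
    by_contra hcon
    exact absurd (Finset.le_max' (Finset.univ.filter fun j => z j ≠ 0) i (by simpa using hcon))
      (not_le.2 hi)
  have hcurve : ∀ (u : Fin (n + 1) → L) (hu : X.IsPt u),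
      (∀ a, aeval (curvePoly u z) (X.form a) = 0) → ∀ hzj : X.IsPt (z j),
        ptCycle X u hu - ptCycle X (z j) hzj ∈ ratEquiv X := by
    intro u hu hf hzj
    have hpt : X.IsPt (fun i => Polynomial.aeval (RatFunc.X : RatFunc L) (curvePoly u z i) :
        Fin (n + 1) → RatFunc L) := by
      refine ⟨fun h0 => hu.1 ?_, fun a => ?_⟩
      · funext i
        have h1 := congrFun h0 i
        have h2 : curvePoly u z i = 0 := by
          by_contra hne
          exact transcendental_X (L := L) ⟨_, hne, h1⟩
        rw [← curvePoly_coeff_zero u z i, h2]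
        rfl
      · have h4 := MvPolynomial.comp_aeval_apply (curvePoly u z)
          ((Polynomial.aeval (RatFunc.X : RatFunc L)).restrictScalars K) (X.form a)
        rw [hf a, map_zero] at h4
        exact h4.symm
    exact curve_equiv X u (z j) hu hzj (curvePoly u z) ((j : ℕ) + 1)
      (fun i => curvePoly_coeff_zero u z i) (fun i => curvePoly_coeff_succ u z i j)
      (fun i => curvePoly_natDegree u z i j hj') hpt
  have hzj : X.IsPt (z j) := by
    have h1 := isPt_last X (curvePoly x z) ((j : ℕ) + 1)
      (fun i => curvePoly_natDegree x z i j hj') h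
    have h2 : (fun i => (curvePoly x z i).coeff ((j : ℕ) + 1)) = z j := by
      funext i
      exact curvePoly_coeff_succ x z i j
    rw [h2] at h1
    exact h1 hj
  have e1 := hcurve x hx h hzj
  have e2 := hcurve y hy h' hzj
  have e4 : ∀ a b c : ClosedPoint X →₀ ℤ, a - b = a - c - (b - c) := fun a b c => by abel
  rw [e4 _ _ (ptCycle X (z j) hzj)]
  exact sub_mem e1 e2

/-- If for every prime `l` the points `x` and `y` are joined by rational curves over an extension
of degree prime to `l`, then they are rationally equivalent. -/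
theorem equiv_of_joined [FiniteDimensional K L] (X : ProjVar K n r) (x y : Fin (n + 1) → L)
    (hx : X.IsPt x) (hy : X.IsPt y)
    (h : ∀ l : ℕ, l.Prime → ∃ (M : Type u) (_ : Field M) (_ : Algebra L M)
      (_ : FiniteDimensional L M), (Module.finrank L M).Coprime l ∧
      ∃ (e : ℕ) (z : Fin e → Fin (n + 1) → M), z ≠ 0 ∧
        ∀ a, aeval (curvePoly (fun i => algebraMap L M (x i)) z)
            (MvPolynomial.map (algebraMap K L) (X.form a)) = 0 ∧
          aeval (curvePoly (fun i => algebraMap L M (y i)) z)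
            (MvPolynomial.map (algebraMap K L) (X.form a)) = 0) :
    ptCycle X x hx - ptCycle X y hy ∈ ratEquiv X := by
  set c := ptCycle X x hx - ptCycle X y hy with hc
  -- the multiples of `c` which are rationally equivalent to zero
  let J : AddSubgroup ℤ := (ratEquiv X).comap (zmultiplesHom _ c)
  have hJ : ∀ m : ℤ, m ∈ J ↔ m • c ∈ ratEquiv X := fun m => by
    rw [AddSubgroup.mem_comap, zmultiplesHom_apply]
  obtain ⟨g, hg⟩ := Int.subgroup_cyclic J
  have hg1 : ∀ m : ℤ, m ∈ J ↔ g ∣ m := by
    intro m
    rw [hg, ← AddSubgroup.zmultiples_eq_closure, Int.mem_zmultiples_iff]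
  suffices hone : (1 : ℤ) ∈ J by
    have := (hJ 1).1 hone
    rwa [one_smul] at this
  rw [hg1]
  by_contra hcon
  have hg2 : g.natAbs ≠ 1 := fun h1 => hcon (Int.isUnit_iff_natAbs_eq.2 h1).dvd
  obtain ⟨l, hl, hlg⟩ := Nat.exists_prime_and_dvd hg2
  obtain ⟨M, _, _, _, hdeg, e, z, hz, hf⟩ := h l hl
  let _ : Algebra K M := ((algebraMap L M).comp (algebraMap K L)).toAlgebra
  have _ : IsScalarTower K L M := IsScalarTower.of_algebraMap_eq fun a => rfl
  have _ : FiniteDimensional K M := FiniteDimensional.trans K L M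
  have hx' : X.IsPt fun i => algebraMap L M (x i) := isPt_emb X (IsScalarTower.toAlgHom K L M) hx
  have hy' : X.IsPt fun i => algebraMap L M (y i) := isPt_emb X (IsScalarTower.toAlgHom K L M) hy
  have key := joined_equiv X _ _ hx' hy' z hz
    (fun a => by
      have := (hf a).1
      rwa [aeval_map_algebraMap] at this)
    (fun a => by
      have := (hf a).2
      rwa [aeval_map_algebraMap] at this)
  rw [ptCycle_tower X x hx hx', ptCycle_tower X y hy hy', ← smul_sub] at key
  have h1 : (Module.finrank L M : ℤ) ∈ J := (hJ _).2 key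
  rw [hg1] at h1
  have h2 : l ∣ Module.finrank L M := by
    have : (l : ℤ) ∣ (Module.finrank L M : ℤ) :=
      (Int.natCast_dvd.2 hlg).trans h1
    exact_mod_cast this
  have h3 : l ∣ 1 := by
    rw [← hdeg.gcd_eq_one]
    exact Nat.dvd_gcd h2 dvd_rfl
  exact hl.one_lt.ne' (Nat.dvd_one.1 h3)

end

end ZC
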