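import Pool.Agent.Helper72.ZC.Line

/-!
# Rational equivalence along a rational curve (Helper89, row D of MP_bd895b_nt)
-/

set_option autoImplicit false

open MvPolynomial

namespace ZC

universe u

section line

variable {K L E : Type u} [Field K] [Field L] [Field E] [Algebra K L] [Algebra L E] [Algebra K E]
  [IsScalarTower K L E] [Algebra.IsAlgebraic K L] {n r : ℕ}

/-- The value at `t = 0` of a point given by polynomials in `t`. -/
theorem ptCycle_red_poly (X : ProjVar K n r) (w : Place K E) {t : E}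
    (hw : w.A.valuation t < 1) (hadj : IntermediateField.adjoin L {t} = ⊤)
    (x : Fin (n + 1) → L) (hx : X.IsPt x) (p : Fin (n + 1) → Polynomial L)
    (hp : ∀ i, (p i).coeff 0 = x i) (y : Fin (n + 1) → E) (hy : X.IsPt y) (g : E)
    (h : ∀ i, y i = g * Polynomial.aeval t (p i)) :
    ptCycle X (red w y hy.1) (red_isPt X w y hy) = ptCycle X x hx := by
  obtain ⟨i₀, hi₀⟩ : ∃ i, x i ≠ 0 := by
    by_contra hcon
    push Not at hcon
    exact hx.1 (funext hcon)
  let y' : Fin (n + 1) → w.A := fun i => ⟨Polynomial.aeval t (p i), Place.aeval_mem w hw (p i)⟩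
  have hres : ∀ i, IsLocalRing.residue w.A (y' i) = Place.emRes w (x i) := by
    intro i
    rw [← hp i]
    exact Place.residue_aeval w hw (p i)
  have hu : IsUnit (y' i₀) := by
    rw [← IsLocalRing.residue_ne_zero_iff_isUnit, hres]
    exact (_root_.map_ne_zero _).2 hi₀
  obtain ⟨c, hc, h1⟩ := red_eq w y hy.1 g y' h i₀ hu
  refine (ptCycle_congr X (Place.resEquiv w hw hadj) c hc hx _ fun i => ?_).symm
  rw [h1 i, hres, Place.resEquiv_apply]

end line

section ratfunc

variable {K L : Type u} [Field K] [Field L] [Algebra K L]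

/-- The points at `0` and at infinity of a rational curve on `X` are rationally equivalent. -/
theorem curve_equiv {n r : ℕ} [FiniteDimensional K L] (X : ProjVar K n r) (x z : Fin (n + 1) → L)
    (hx : X.IsPt x) (hz : X.IsPt z) (p : Fin (n + 1) → Polynomial L) (e : ℕ)
    (h0 : ∀ i, (p i).coeff 0 = x i) (he : ∀ i, (p i).coeff e = z i)
    (hdeg : ∀ i, (p i).natDegree ≤ e)
    (h : X.IsPt (fun i => Polynomial.aeval (RatFunc.X : RatFunc L) (p i) :
      Fin (n + 1) → RatFunc L)) :
    ptCycle X x hx - ptCycle X z hz ∈ ratEquiv X := by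
  classical
  refine AddSubgroup.subset_closure ⟨RatFunc L, inferInstance, inferInstance,
    isCurveField_ratFunc, _, h, RatFunc.X, RatFunc.X_ne_zero, ?_⟩
  let w0 : Place K (RatFunc L) := zeroPlace K (RatFunc.X : RatFunc L) transcendental_X
    RatFunc.adjoin_X
  let w1 : Place K (RatFunc L) := zeroPlace K (RatFunc.X⁻¹ : RatFunc L) transcendental_X_inv
    adjoin_X_inv
  have h0' : w0.A.valuation (RatFunc.X : RatFunc L) < 1 :=
    val_zeroPlace _ transcendental_X RatFunc.adjoin_X
  have h1 : w1.A.valuation (RatFunc.X⁻¹ : RatFunc L) < 1 :=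
    val_zeroPlace _ transcendental_X_inv adjoin_X_inv
  have hX0 : (RatFunc.X : RatFunc L) ≠ 0 := RatFunc.X_ne_zero
  have hne : w0 ≠ w1 := by
    intro hw
    rw [← hw, map_inv₀] at h1
    have h2 : 0 < w0.A.valuation (RatFunc.X : RatFunc L) :=
      zero_lt_iff.2 ((Valuation.ne_zero_iff _).2 hX0)
    exact absurd h0' (not_lt.2 ((inv_lt_one₀ h2).1 h1).le)
  have hsupp : ∀ w : Place K (RatFunc L), w ≠ w0 → w ≠ w1 → w.ord RatFunc.X = 0 := by
    intro w hw0 hw1
    rcases lt_trichotomy (w.A.valuation (RatFunc.X : RatFunc L)) 1 with hlt | heq | hgt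
    · exact absurd (Place.unique_zero RatFunc.adjoin_X w w0 hlt h0') hw0
    · exact Place.ord_of_unit w heq
    · refine absurd (Place.unique_zero adjoin_X_inv w w1 ?_ h1) hw1
      rw [map_inv₀]
      exact inv_lt_one_of_one_lt₀ hgt
  have e0 : w0.ord (RatFunc.X : RatFunc L) = 1 :=
    Place.ord_t w0 transcendental_X RatFunc.adjoin_X h0'
  have e1 : w1.ord (RatFunc.X : RatFunc L) = -1 := by
    have := Place.ord_t_inv w1 transcendental_X_inv adjoin_X_inv h1
    rwa [inv_inv] at this
  have c0 : ptCycle X (red w0 _ h.1) (red_isPt X w0 _ h) = ptCycle X x hx :=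
    ptCycle_red_poly X w0 h0' RatFunc.adjoin_X x hx p h0 _ h 1 (fun i => by rw [one_mul])
  have c1 : ptCycle X (red w1 _ h.1) (red_isPt X w1 _ h) = ptCycle X z hz := by
    refine ptCycle_red_poly X w1 h1 adjoin_X_inv z hz (fun i => Polynomial.reflect e (p i))
      (fun i => ?_) _ h (RatFunc.X ^ e) (fun i => ?_)
    · rw [Polynomial.coeff_reflect, Polynomial.revAt_le (Nat.zero_le e), Nat.sub_zero, he i]
    · have := invertibleOfNonzero hX0
      have h3 := Polynomial.eval₂_reflect_mul_pow (algebraMap L (RatFunc L)) RatFunc.X e (p i)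
        (hdeg i)
      rw [invOf_eq_inv] at h3
      rw [Polynomial.aeval_def, ← h3, mul_comm, Polynomial.aeval_def]
  rw [curveCycle, finsum_eq_sum_of_support_subset (s := {w0, w1}), Finset.sum_pair hne, e0, e1,
    c0, c1, one_smul, neg_smul, one_smul, sub_eq_add_neg]
  intro w hw
  rw [Function.mem_support] at hw
  by_contra hcon
  simp only [Finset.coe_insert, Finset.coe_singleton, Set.mem_insert_iff,
    Set.mem_singleton_iff, not_or] at hcon
  exact hw (by rw [hsupp w hcon.1 hcon.2, zero_smul])

end ratfunc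

end ZC
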