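import Pool.Agent.Helper89.BD.Gen
import Pool.Agent.Helper91.ZC.FinalHyp

/-!
# Zero-cycles on complete intersections over global function fields: assembly
(Helper89, rows D and E of MP_bd895b_nt)
-/

set_option autoImplicit false

open MvPolynomial

namespace ZC

universe u

/-- Any two `L`-points of a variety given by forms of degrees `d` are joined by rational curves
over extensions of `L` of degree prime to `l`, for every prime `l`. -/
def Joinable (L : Type u) [Field L] {r : ℕ} (n : ℕ) (d : Fin r → ℕ) : Prop :=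
  ∀ X : ProjVar L n r, X.d = d → ∀ x y : Fin (n + 1) → L, X.IsPt x → X.IsPt y →
    ∀ l : ℕ, l.Prime → ∃ (M : Type u) (_ : Field M) (_ : Algebra L M)
      (_ : FiniteDimensional L M), (Module.finrank L M).Coprime l ∧
      ∃ (e : ℕ) (z : Fin e → Fin (n + 1) → M), z ≠ 0 ∧
        ∀ a, aeval (curvePoly (fun i => algebraMap L M (x i)) z) (X.form a) = 0 ∧
          aeval (curvePoly (fun i => algebraMap L M (y i)) z) (X.form a) = 0

/-- The numerical conditions: `∑ (d² + (d - 1)²) ≤ n`; or all forms are quadratic, `4 r ≤ n` and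
`6 r ≤ n + 4`; or there is one form of degree `d` and `2 (1² + … + (d - 2)²) + d² ≤ n`. -/
def LowDeg (n : ℕ) {r : ℕ} (d : Fin r → ℕ) : Prop :=
  ∑ i, (d i ^ 2 + (d i - 1) ^ 2) ≤ n ∨
  ((∀ i, d i = 2) ∧ 4 * r ≤ n ∧ 6 * r ≤ n + 4) ∨
  (r = 1 ∧ ∀ i, 2 * ∑ j ∈ Finset.range (d i - 1), j ^ 2 + d i ^ 2 ≤ n)

theorem LowDeg.sum_sq {n r : ℕ} {d : Fin r → ℕ} (h : LowDeg n d) : ∑ i, d i ^ 2 ≤ n := by
  rcases h with h | ⟨h2, h4, -⟩ | ⟨rfl, h⟩
  · exact (Finset.sum_le_sum fun i _ => Nat.le_add_right _ _).trans h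
  · simp only [h2, Finset.sum_const, Finset.card_univ, Fintype.card_fin, smul_eq_mul]
    omega
  · rw [Fin.sum_univ_one]
    have := h 0
    omega

section gen

variable {K : Type u} [Field K] {n r : ℕ}

/-- The Chow group of zero-cycles is generated by the class of any rational point. -/
theorem CH0_gen_ci (hK : ∀ (L : Type u) [Field L] [Algebra K L], FiniteDimensional K L → C2 L)
    (X : ProjVar K n r) (hd : ∀ i, 0 < X.d i) (hn : LowDeg n X.d)
    (hJ : ∑ i, (X.d i ^ 2 + (X.d i - 1) ^ 2) ≤ n →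
      ∀ (L : Type u) [Field L] [Algebra K L], FiniteDimensional K L → Joinable L n X.d)
    (x : Fin (n + 1) → K) (hx : X.IsPt x) (c : CH0 X) : ∃ m : ℤ, c = m • cls X x hx := by
  rcases hn with h | ⟨h2, -, h6⟩ | ⟨rfl, h⟩
  · refine CH0_gen_of X (fun L _ _ hfd x y hx hy => ?_) x hx c
    have hpt : ∀ {u : Fin (n + 1) → L}, X.IsPt u → (X.map (algebraMap K L)).IsPt u := by
      intro u hu
      refine ⟨hu.1, fun i => ?_⟩
      have h1 := hu.2 i
      rw [← MvPolynomial.aeval_map_algebraMap L u (X.form i)] at h1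
      exact h1
    exact equiv_of_joined X x y hx hy (hJ h L hfd (X.map (algebraMap K L)) rfl x y (hpt hx) (hpt hy))
  · exact CH0_gen_quad hK X h2 h6 x hx c
  · exact CH0_gen_hyp hK X (hd 0) (h 0) x hx c

end gen

variable {F k : Type u} [Field F] [Field k] [Algebra F k]

/-- The local-global complex for zero-cycles on complete intersections: assembly. -/
theorem main_ci_of [Finite F] (hk : IsCurveField F k) {n r : ℕ} (X : ProjVar k n r)
    (hd : ∀ i, 0 < X.d i) (hn : LowDeg n X.d)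
    (hJ : ∑ i, (X.d i ^ 2 + (X.d i - 1) ^ 2) ≤ n →
      (∀ (L : Type u) [Field L] [Algebra k L], FiniteDimensional k L → Joinable L n X.d) ∧
      ∀ (v : Place F k) (L : Type u) [Field L] [Algebra v.Completion L],
        FiniteDimensional v.Completion L → Joinable L n X.d) :
    ∃ (x : Fin (n + 1) → k) (hx : X.IsPt x),
      (∀ c : CH0 X, c = CH0.deg X c • cls X x hx) ∧
      (∀ (v : Place F k) (c : CH0 (X.map v.emb)), c = CH0.deg _ c •
        cls (X.map v.emb) (fun i => v.emb (x i)) (isPt_map X v.emb hx)) ∧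
      ∀ z : ∀ v : Place F k, ℕ → CH0 (X.map v.emb), (∀ v, IsCompat (z v)) →
        (∀ (f : k) (m : ℕ), f ≠ 0 → 0 < m → ∑ᶠ v : Place F k, constPairing v (z v m) f m = 0) →
        ∃ c : ℕ → ℤ, IsCompat c ∧ ∀ (v : Place F k) (m : ℕ), 0 < m →
          ∃ g, c m • cls (X.map v.emb) (fun i => v.emb (x i)) (isPt_map X v.emb hx) - z v m =
            m • g := by
  obtain ⟨x, hx⟩ := exists_point hk.c2 X hd hn.sum_sq
  have key : ∀ {K : Type u} [Field K] (Y : ProjVar K n r) (y : Fin (n + 1) → K) (hy : Y.IsPt y),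
      (∀ c : CH0 Y, ∃ m : ℤ, c = m • cls Y y hy) → ∀ c : CH0 Y, c = CH0.deg Y c • cls Y y hy := by
    intro K _ Y y hy hg c
    obtain ⟨m, rfl⟩ := hg c
    rw [map_zsmul, CH0.deg_cls, smul_eq_mul, mul_one]
  have hgenv : ∀ (v : Place F k) (c : CH0 (X.map v.emb)),
      ∃ m : ℤ, c = m • cls (X.map v.emb) (fun i => v.emb (x i)) (isPt_map X v.emb hx) :=
    fun v c => CH0_gen_ci (fun L _ _ hL => (v.c2 hk).finite) (X.map v.emb) hd hn
      (fun h L _ _ hfd => (hJ h).2 v L hfd) _ _ c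
  exact ⟨x, hx, key X x hx fun c => CH0_gen_ci (fun L _ _ hL => hk.c2.finite) X hd hn
      (fun h L _ _ hfd => (hJ h).1 L hfd) x hx c,
    fun v => key _ _ _ (hgenv v), fun z hz horth => main_of_gen hk X x hx hgenv z hz horth⟩

end ZC
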