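import Pool.Agent.Helper89.BD.Final
import Pool.Agent.Helper99.BD.Final

/-!
# Zero-cycles on complete intersections over global function fields: `∑ (d² + (d - 1)²) ≤ n`
-/

set_option autoImplicit false

open MvPolynomial

namespace ZC

universe u

theorem joinable_of_wtlup {K L : Type u} [Field K] [Field L] [Algebra K L]
    [FiniteDimensional K L] (hK : ∀ l : ℕ, l.Prime → WTLup l K) {n r : ℕ} (d : Fin r → ℕ)
    (hn : ∑ a, (d a ^ 2 + (d a - 1) ^ 2) ≤ n) : Joinable L n d := by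
  intro X hX x y hx hy l hl
  subst hX
  obtain ⟨M, _, _, hfin, hcop, e, z, hz, h1, h2⟩ :=
    (hK l hl).of_finite.exists_curves (L := L) hl X hn hx hy
  exact ⟨M, inferInstance, inferInstance, hfin, hcop, e, z, hz, fun a => ⟨h1 a, h2 a⟩⟩

theorem main_ci {F k : Type u} [Field F] [Finite F] [Field k] [Algebra F k]
    (hk : IsCurveField F k) {n r : ℕ} (X : ProjVar k n r)
    (hd : ∀ i, 0 < X.d i) (hn : LowDeg n X.d) :
    ∃ (x : Fin (n + 1) → k) (hx : X.IsPt x),
      (∀ c : CH0 X, c = CH0.deg X c • cls X x hx) ∧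
      (∀ (v : Place F k) (c : CH0 (X.map v.emb)), c = CH0.deg _ c •
        cls (X.map v.emb) (fun i => v.emb (x i)) (isPt_map X v.emb hx)) ∧
      ∀ z : ∀ v : Place F k, ℕ → CH0 (X.map v.emb), (∀ v, IsCompat (z v)) →
        (∀ (f : k) (m : ℕ), f ≠ 0 → 0 < m → ∑ᶠ v : Place F k, constPairing v (z v m) f m = 0) →
        ∃ c : ℕ → ℤ, IsCompat c ∧ ∀ (v : Place F k) (m : ℕ), 0 < m →
          ∃ g, c m • cls (X.map v.emb) (fun i => v.emb (x i)) (isPt_map X v.emb hx) - z v m =
            m • g := by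
  refine main_ci_of hk X hd hn fun h => ⟨fun L _ _ hfd => ?_, fun v L _ _ hfd => ?_⟩
  · exact joinable_of_wtlup (fun l hl => hk.wtlup' hl) X.d h
  · exact joinable_of_wtlup (fun l hl => v.wtlup hk hl) X.d h

end ZC
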